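import Pool.Agent.Helper81.NM.Arcs
import Pool.Agent.Helper5.NM.Joint

/-!
The number of carries in the representations `n = a + a'`.
-/

set_option autoImplicit false

open Finset Filter

namespace Pool.Agent.Helper18.NM

open Pool.Agent.Helper16.NM (rep)
open Pool.Agent.Helper81.NM (Dev arcIneq)
open Pool.Agent.Helper5.NM (rep_bound')

theorem carry_iff {m : ℕ} (hm : 0 < m) (a b : ℕ) :
    Int.fract ((b : ℝ) / m - (-((a : ℝ) / m))) < Int.fract ((a : ℝ) / m) ↔
      m ≤ a % m + b % m := by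
  have e1 : (b : ℝ) / m - (-((a : ℝ) / m)) = ((a + b : ℕ) : ℝ) / m := by push_cast; ring
  rw [e1, Int.fract_div_natCast_eq_div_natCast_mod, Int.fract_div_natCast_eq_div_natCast_mod]
  have hm' : (0 : ℝ) < m := by exact_mod_cast hm
  rw [div_lt_div_iff_of_pos_right hm', Nat.cast_lt]
  have ha := Nat.mod_lt a hm
  have hb := Nat.mod_lt b hm
  rcases lt_or_ge (a % m + b % m) m with h | h
  · rw [Nat.add_mod_of_add_mod_lt h]
    omega
  · have := Nat.add_mod_add_of_le_add_mod h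
    omega

theorem count_thresholds {J : ℕ} (hJ : 0 < J) {y : ℝ} (h0 : 0 ≤ y) (h1 : y < 1) :
    (J : ℝ) * (1 - y) ≤ (#((range J).filter fun j : ℕ => y < ((j : ℝ) + 1) / J) : ℝ) ∧
    (#((range J).filter fun j : ℕ => y < ((j : ℝ) + 1) / J) : ℝ) ≤ J * (1 - y) + 1 := by
  have hJ0 : (0 : ℝ) < J := by exact_mod_cast hJ
  have hy0 : 0 ≤ (J : ℝ) * y := by positivity
  have e : ((range J).filter fun j : ℕ => y < ((j : ℝ) + 1) / J) = Ico ⌊(J : ℝ) * y⌋₊ J := by
    ext j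
    rw [mem_filter, mem_range, mem_Ico, lt_div_iff₀ hJ0]
    constructor
    · rintro ⟨h2, h3⟩
      refine ⟨?_, h2⟩
      have h4 : ⌊(J : ℝ) * y⌋₊ < j + 1 := (Nat.floor_lt hy0).2 (by push_cast; linarith)
      omega
    · rintro ⟨h2, h3⟩
      refine ⟨h3, ?_⟩
      have h4 : (J : ℝ) * y < ((j + 1 : ℕ) : ℝ) := (Nat.floor_lt hy0).1 (by omega)
      push_cast at h4
      linarith
  have h2 : ⌊(J : ℝ) * y⌋₊ ≤ J := by
    apply Nat.floor_le_of_le
    nlinarith
  have h3 := Nat.floor_le hy0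
  have h4 := Nat.lt_floor_add_one ((J : ℝ) * y)
  rw [e, Nat.card_Ico, Nat.cast_sub h2]
  constructor <;> linarith

theorem sum_thresholds (J : ℕ) : ∑ j ∈ range J, ((j : ℝ) + 1) = J * (J + 1) / 2 := by
  induction J with
  | zero => simp
  | succ J ih =>
    rw [sum_range_succ, ih]
    push_cast
    ring

theorem sum_near_half {K J : ℕ} (hJ : 0 < J) (y : ℕ → ℝ) (h0 : ∀ i, 0 ≤ y i) (h1 : ∀ i, y i < 1)
    {e : ℝ} (h : ∀ j < J, |(#{i ∈ range K | y i < ((j : ℝ) + 1) / J} : ℝ)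
      - K * (((j : ℝ) + 1) / J)| ≤ e) :
    |∑ i ∈ range K, y i - K / 2| ≤ K / J + e := by
  have hJ0 : (0 : ℝ) < J := by exact_mod_cast hJ
  have hK0 : (0 : ℝ) ≤ K := Nat.cast_nonneg K
  have hswap : ∑ j ∈ range J, (#{i ∈ range K | y i < ((j : ℝ) + 1) / J} : ℝ)
      = ∑ i ∈ range K, (#((range J).filter fun j : ℕ => y i < ((j : ℝ) + 1) / J) : ℝ) := by
    simp only [card_filter]
    push_cast
    exact sum_comm
  have hL : (J : ℝ) * K - J * ∑ i ∈ range K, y i ≤
      ∑ i ∈ range K, (#((range J).filter fun j : ℕ => y i < ((j : ℝ) + 1) / J) : ℝ) := by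
    have h2 : ∑ i ∈ range K, (J : ℝ) * (1 - y i) ≤
        ∑ i ∈ range K, (#((range J).filter fun j : ℕ => y i < ((j : ℝ) + 1) / J) : ℝ) :=
      sum_le_sum fun i _ => (count_thresholds hJ (h0 i) (h1 i)).1
    rw [← mul_sum, sum_sub_distrib, sum_const, card_range, nsmul_eq_mul, mul_one] at h2
    linarith
  have hU : ∑ i ∈ range K, (#((range J).filter fun j : ℕ => y i < ((j : ℝ) + 1) / J) : ℝ) ≤
      (J : ℝ) * K - J * ∑ i ∈ range K, y i + K := by
    have h2 : ∑ i ∈ range K, (#((range J).filter fun j : ℕ => y i < ((j : ℝ) + 1) / J) : ℝ) ≤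
        ∑ i ∈ range K, ((J : ℝ) * (1 - y i) + 1) :=
      sum_le_sum fun i _ => (count_thresholds hJ (h0 i) (h1 i)).2
    rw [sum_add_distrib, ← mul_sum, sum_sub_distrib, sum_const, card_range, nsmul_eq_mul,
      mul_one] at h2
    linarith
  have hT : |∑ j ∈ range J, (#{i ∈ range K | y i < ((j : ℝ) + 1) / J} : ℝ)
      - K * (J + 1) / 2| ≤ J * e := by
    have e1 : (K : ℝ) * (J + 1) / 2 = ∑ j ∈ range J, (K : ℝ) * (((j : ℝ) + 1) / J) := by
      rw [← mul_sum, ← sum_div, sum_thresholds]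
      field_simp
    rw [e1, ← sum_sub_distrib]
    refine (abs_sum_le_sum_abs _ _).trans ?_
    refine (sum_le_sum fun j hj => h j (mem_range.1 hj)).trans ?_
    rw [sum_const, card_range, nsmul_eq_mul]
  rw [hswap] at hT
  obtain ⟨h3, h4⟩ := abs_le.1 hT
  have e2 : (K : ℝ) / J + e = (K + J * e) / J := by field_simp
  rw [e2, abs_le, ← neg_div, div_le_iff₀ hJ0, le_div_iff₀ hJ0]
  constructor <;> nlinarith

theorem dev_finite (A : Set ℕ) (x k : ℕ) (M : ℕ → ℝ) (u l : ℕ → ℕ → ℝ) (η : ℝ) :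
    (Dev A x k M u l η).Finite := by
  apply ((range x ×ˢ range x).finite_toSet).subset
  rintro ⟨a, a'⟩ ⟨_, _, h1, h2, _⟩
  rw [mem_coe, mem_product, mem_range, mem_range]
  exact ⟨h1, h2⟩

theorem ncard_count (K : ℕ) (P : ℕ → Prop) [DecidablePred P] :
    {i | i < K ∧ P i}.ncard = #{i ∈ range K | P i} := by
  rw [← Set.ncard_coe_finset]
  congr 1
  ext i
  simp

/-- For almost all `n` the number of carries is near one half of the number of digits, in every
representation. -/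
theorem carryForm : ∀ b : ℕ, 2 ≤ b → ∀ ε : ℝ, 0 < ε → ∃ c : ℝ, 0 < c ∧ ∀ A : Set ℕ,
    (∀ᶠ n : ℕ in atTop, (rep A n : ℝ) < (n : ℝ) ^ c) →
    ∀ᶠ K : ℕ in atTop, (Set.ncard {n | n < b ^ K ∧ ∃ a ∈ A, ∃ a' ∈ A, a + a' = n ∧
      ε * K ≤ |(Set.ncard {i | i < K ∧ b ^ (i + 1) ≤ a % b ^ (i + 1) + a' % b ^ (i + 1)} : ℝ)
        - K / 2|} : ℝ) < (b : ℝ) ^ ((K : ℝ) * (1 - c)) := by
  classical
  intro b hb ε hε
  have hb1 : (1 : ℝ) < (b : ℝ) := by exact_mod_cast (by omega : 1 < b)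
  have hb0 : (0 : ℝ) < (b : ℝ) := by linarith
  set η : ℝ := ε / 4 with hη
  have hη0 : 0 < η := by positivity
  obtain ⟨J, hJ⟩ := exists_nat_gt (4 / ε)
  have hJ0' : (0 : ℝ) < J := lt_trans (by positivity) hJ
  have hJ0 : 0 < J := by exact_mod_cast hJ0'
  have hJ1 : 1 / (J : ℝ) ≤ η := by
    rw [div_le_iff₀ hJ0', hη]
    rw [div_lt_iff₀ hε] at hJ
    linarith
  obtain ⟨c0, hc0, C0, hC0, hmain⟩ := arcIneq hb1 hη0
  have hlog : 0 < Real.log b := Real.log_pos hb1
  set κ : ℝ := c0 / Real.log b with hκ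
  have hκ0 : 0 < κ := by positivity
  refine ⟨κ / 8, by positivity, fun A hA => ?_⟩
  obtain ⟨R, hR0, hR⟩ := rep_bound' (by positivity) hA
  set c : ℝ := κ / 8 with hc
  have hcpos : 0 < c := by positivity
  set D : ℝ := 2 * C0 * R ^ 2 * ((2 : ℝ) ^ c) ^ 2 with hD
  have hD0 : 0 < D := by positivity
  have hev : ∀ᶠ K : ℕ in atTop, ((J : ℝ) + 1) * √D < (b : ℝ) ^ ((κ / 4) * (K : ℝ)) := by
    have h1 : Tendsto (fun K : ℕ => (b : ℝ) ^ ((κ / 4) * (K : ℝ))) atTop atTop := by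
      apply (tendsto_rpow_atTop_of_base_gt_one _ hb1).comp
      exact Tendsto.const_mul_atTop (by positivity) tendsto_natCast_atTop_atTop
    exact h1.eventually_gt_atTop _
  filter_upwards [hev, eventually_gt_atTop 0] with K hK hK1
  have hK1' : (0 : ℝ) < K := by exact_mod_cast hK1
  set x : ℕ := b ^ K with hx
  set M : ℕ → ℝ := fun i => (b : ℝ) ^ (i + 1) with hM
  let U : ℕ → ℕ → ℕ → ℝ := fun w a i => if w = 0 then -((a : ℝ) / M i) else 0
  let L : ℕ → ℕ → ℕ → ℝ := fun w a i => if w = 0 then Int.fract ((a : ℝ) / M i) else (w : ℝ) / J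
  let G : ℕ → Set (ℕ × ℕ) := fun w => Dev A x K M (U w) (L w) η
  have hGfin : ∀ w, (G w).Finite := fun w => dev_finite _ _ _ _ _ _ _
  have hx0 : (0 : ℝ) < (x : ℝ) := by rw [hx]; positivity
  have hxR : (x : ℝ) = (b : ℝ) ^ K := by rw [hx]; push_cast; rfl
  have hE : ∑ m ∈ range (2 * x), (rep A m : ℝ) ^ 2 ≤ 2 * x * (R * ((2 * x : ℕ) : ℝ) ^ c) ^ 2 := by
    calc ∑ m ∈ range (2 * x), (rep A m : ℝ) ^ 2
        ≤ ∑ _m ∈ range (2 * x), (R * ((2 * x : ℕ) : ℝ) ^ c) ^ 2 := by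
          refine sum_le_sum fun m hm => ?_
          exact pow_le_pow_left₀ (by positivity) (hR _ m (mem_range.1 hm)) 2
      _ = 2 * x * (R * ((2 * x : ℕ) : ℝ) ^ c) ^ 2 := by
          rw [sum_const, card_range, nsmul_eq_mul]
          push_cast
          ring
  have hexpK : Real.exp (c0 * K) = (b : ℝ) ^ (κ * (K : ℝ)) := by
    rw [Real.rpow_def_of_pos hb0, hκ]
    congr 1
    field_simp
  have hG : ∀ w ≤ J, ((G w).ncard : ℝ) ≤ √D * (b : ℝ) ^ ((1 + c - κ / 2) * K) := by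
    intro w hw
    have h1 := hmain A x K M (U w) (L w)
      (by
        intro i hi
        refine ⟨one_le_pow₀ hb1.le, ?_⟩
        rw [hx]
        push_cast
        exact pow_le_pow_right₀ hb1.le (by omega))
      (by
        intro i _
        show (b : ℝ) * (b : ℝ) ^ (i + 1) ≤ (b : ℝ) ^ (i + 1 + 1)
        apply le_of_eq
        ring)
      (by
        intro a i _
        show 0 ≤ (if w = 0 then Int.fract ((a : ℝ) / M i) else (w : ℝ) / J) ∧
          (if w = 0 then Int.fract ((a : ℝ) / M i) else (w : ℝ) / J) ≤ 1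
        split_ifs
        · exact ⟨Int.fract_nonneg _, (Int.fract_lt_one _).le⟩
        · refine ⟨by positivity, ?_⟩
          rw [div_le_one hJ0']
          exact_mod_cast hw)
    have h2 : ((G w).ncard : ℝ) ^ 2 ≤ (√D * (b : ℝ) ^ ((1 + c - κ / 2) * K)) ^ 2 := by
      rw [mul_pow, Real.sq_sqrt hD0.le]
      have h3 : ((b : ℝ) ^ ((1 + c - κ / 2) * K)) ^ 2 * (b : ℝ) ^ (κ * (K : ℝ))
          = ((b : ℝ) ^ K) ^ 2 * (((b : ℝ) ^ K) ^ c) ^ 2 := by
        rw [← Real.rpow_natCast ((b : ℝ) ^ ((1 + c - κ / 2) * K)) 2, ← Real.rpow_mul hb0.le,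
          ← Real.rpow_add hb0, ← Real.rpow_natCast (b : ℝ) K, ← Real.rpow_natCast _ 2,
          ← Real.rpow_mul hb0.le, ← Real.rpow_mul hb0.le, ← Real.rpow_natCast _ 2,
          ← Real.rpow_mul hb0.le, ← Real.rpow_add hb0]
        congr 1
        push_cast
        ring
      have h4 : (0 : ℝ) < (b : ℝ) ^ (κ * (K : ℝ)) := Real.rpow_pos_of_pos hb0 _
      refine le_of_mul_le_mul_right ?_ h4
      calc ((G w).ncard : ℝ) ^ 2 * (b : ℝ) ^ (κ * (K : ℝ))
          = ((G w).ncard : ℝ) ^ 2 * Real.exp (c0 * K) := by rw [hexpK]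
        _ ≤ C0 * x * ∑ m ∈ range (2 * x), (rep A m : ℝ) ^ 2 := h1
        _ ≤ C0 * x * (2 * x * (R * ((2 * x : ℕ) : ℝ) ^ c) ^ 2) :=
            mul_le_mul_of_nonneg_left hE (by positivity)
        _ = D * (((b : ℝ) ^ K) ^ 2 * (((b : ℝ) ^ K) ^ c) ^ 2) := by
            have h5 : ((2 * x : ℕ) : ℝ) ^ c = (2 : ℝ) ^ c * ((b : ℝ) ^ K) ^ c := by
              rw [← Real.mul_rpow (by positivity) (by positivity)]
              congr 1
              push_cast
              rw [hxR]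
            rw [h5, hxR, hD]
            ring
        _ = D * (((b : ℝ) ^ ((1 + c - κ / 2) * K)) ^ 2 * (b : ℝ) ^ (κ * (K : ℝ))) := by rw [h3]
        _ = _ := by ring
    exact (sq_le_sq₀ (by positivity) (by positivity)).1 h2
  have hfin2 : (⋃ w ∈ range (J + 1), G w).Finite :=
    Set.Finite.biUnion (finite_toSet _) fun w _ => hGfin _
  have hsub : {n : ℕ | n < b ^ K ∧ ∃ a ∈ A, ∃ a' ∈ A, a + a' = n ∧
      ε * K ≤ |(Set.ncard {i | i < K ∧ b ^ (i + 1) ≤ a % b ^ (i + 1) + a' % b ^ (i + 1)} : ℝ)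
        - K / 2|} ⊆ (fun z : ℕ × ℕ => z.1 + z.2) '' (⋃ w ∈ range (J + 1), G w) := by
    rintro n ⟨hn, a, ha, a', ha', hs, hbad⟩
    by_contra hcon
    have hno : ∀ w ≤ J, (a, a') ∉ G w ∧ (a', a) ∉ G w := by
      intro w hw
      constructor
      · intro hmem
        exact hcon ⟨(a, a'), Set.mem_iUnion₂.2 ⟨w, by simp; omega, hmem⟩, hs⟩
      · intro hmem
        exact hcon ⟨(a', a), Set.mem_iUnion₂.2 ⟨w, by simp; omega, hmem⟩, by
          show a' + a = n
          omega⟩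
    have hax : a < x := by omega
    have hax' : a' < x := by omega
    -- the carries against the sum of the fractional parts
    have h1 : |(Set.ncard {i | i < K ∧ b ^ (i + 1) ≤ a % b ^ (i + 1) + a' % b ^ (i + 1)} : ℝ)
        - ∑ i ∈ range K, Int.fract ((a : ℝ) / M i)| < η * K := by
      by_contra h2
      push Not at h2
      refine (hno 0 (Nat.zero_le _)).1 ⟨ha, ha', hax, hax', ?_⟩
      have e1 : {i | i < K ∧ Int.fract (((a, a').2 : ℝ) / M i - U 0 (a, a').1 i)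
          < L 0 (a, a').1 i} =
          {i | i < K ∧ b ^ (i + 1) ≤ a % b ^ (i + 1) + a' % b ^ (i + 1)} := by
        ext i
        show i < K ∧ Int.fract ((a' : ℝ) / (b : ℝ) ^ (i + 1) - (-((a : ℝ) / (b : ℝ) ^ (i + 1))))
          < Int.fract ((a : ℝ) / (b : ℝ) ^ (i + 1)) ↔ _
        have e2 : (b : ℝ) ^ (i + 1) = ((b ^ (i + 1) : ℕ) : ℝ) := by push_cast; rfl
        rw [e2, carry_iff (Nat.pow_pos (by omega)) a a']
        rfl
      rw [e1]
      exact h2
    -- the sum of the fractional parts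
    have h3 : |∑ i ∈ range K, Int.fract ((a : ℝ) / M i) - K / 2| ≤ K / J + η * K := by
      refine sum_near_half hJ0 (fun i => Int.fract ((a : ℝ) / M i)) (fun i => Int.fract_nonneg _)
        (fun i => Int.fract_lt_one _) fun j hj => ?_
      by_contra h4
      push Not at h4
      refine (hno (j + 1) (by omega)).2 ⟨ha', ha, hax', hax, ?_⟩
      have e1 : {i | i < K ∧ Int.fract (((a', a).2 : ℝ) / M i - U (j + 1) (a', a).1 i)
          < L (j + 1) (a', a).1 i} =
          {i | i < K ∧ Int.fract ((a : ℝ) / M i) < ((j : ℝ) + 1) / J} := by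
        ext i
        show i < K ∧ Int.fract ((a : ℝ) / M i - 0) < ((j + 1 : ℕ) : ℝ) / J ↔ _
        rw [sub_zero]
        push_cast
        rfl
      have e2 : ∑ i ∈ range K, L (j + 1) (a', a).1 i = K * (((j : ℝ) + 1) / J) := by
        have e3 : ∀ i ∈ range K, L (j + 1) (a', a).1 i = ((j : ℝ) + 1) / J := by
          intro i _
          show ((j + 1 : ℕ) : ℝ) / J = _
          push_cast
          rfl
        rw [sum_congr rfl e3, sum_const, card_range, nsmul_eq_mul]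
      rw [e1, e2, ncard_count]
      exact h4.le
    have h5 : (K : ℝ) / J ≤ η * K := by
      have := mul_le_mul_of_nonneg_right hJ1 hK1'.le
      calc (K : ℝ) / J = 1 / J * K := by ring
        _ ≤ _ := this
    have h6 := abs_sub_le (Set.ncard {i | i < K ∧ b ^ (i + 1) ≤ a % b ^ (i + 1)
      + a' % b ^ (i + 1)} : ℝ) (∑ i ∈ range K, Int.fract ((a : ℝ) / M i)) (K / 2)
    have h7 : ε * K = 4 * (η * K) := by rw [hη]; ring
    have h8 : 0 < η * K := by positivity
    linarith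
  have hcard : (({n : ℕ | n < b ^ K ∧ ∃ a ∈ A, ∃ a' ∈ A, a + a' = n ∧
      ε * K ≤ |(Set.ncard {i | i < K ∧ b ^ (i + 1) ≤ a % b ^ (i + 1) + a' % b ^ (i + 1)} : ℝ)
        - K / 2|}.ncard : ℕ) : ℝ) ≤ ∑ w ∈ range (J + 1), ((G w).ncard : ℝ) := by
    have h1 := Set.ncard_le_ncard hsub (hfin2.image _)
    have h2 := h1.trans (Set.ncard_image_le hfin2)
    have h3 := h2.trans (Finset.set_ncard_biUnion_le _ _)
    exact_mod_cast h3
  refine lt_of_le_of_lt hcard ?_
  calc ∑ w ∈ range (J + 1), ((G w).ncard : ℝ)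
      ≤ ∑ _w ∈ range (J + 1), √D * (b : ℝ) ^ ((1 + c - κ / 2) * K) :=
        sum_le_sum fun w hw => hG w (by rw [mem_range] at hw; omega)
    _ = ((J : ℝ) + 1) * √D * (b : ℝ) ^ ((1 + c - κ / 2) * K) := by
        rw [sum_const, card_range, nsmul_eq_mul]
        push_cast
        ring
    _ < (b : ℝ) ^ ((κ / 4) * (K : ℝ)) * (b : ℝ) ^ ((1 + c - κ / 2) * K) :=
        mul_lt_mul_of_pos_right hK (by positivity)
    _ = (b : ℝ) ^ ((K : ℝ) * (1 - c)) := by
        rw [← Real.rpow_add hb0]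
        congr 1
        rw [hc]
        ring

end Pool.Agent.Helper18.NM
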